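import Pool.Agent.Helper31.LQ.Goals

/-!
Packet LQ-X5 (MP_6fb600_gt): pointwise bound of a sublinear function by its exponential mean.
-/

open MeasureTheory Set

noncomputable section

namespace Pool.Agent.Helper19.LQ

open Pool.Agent.Helper31.LQ

theorem gX5 (h1 : Pool.Agent.Helper31.LQ.X1) : Pool.Agent.Helper31.LQ.X5 := by
  intro m
  refine ⟨4 ^ m * Real.exp (3 * m), by positivity, ?_⟩
  intro P hP a ha
  have hpos : pos m = Set.pi univ (fun _ : Fin m => Ioi (0 : ℝ)) := by
    ext t
    simp [pos]
  have hmeas : MeasurableSet (pos m) := by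
    rw [hpos]
    exact MeasurableSet.univ_pi fun _ => measurableSet_Ioi
  set g : (Fin m → ℝ) → ℝ := fun t => Real.exp (-∑ b, t b) * P t with hg
  set G : (Fin m → ℝ) → ℝ := (pos m).indicator g with hG
  have hint : Integrable G volume := by
    have := (h1 m P hP 1 one_pos).1
    simp only [one_mul] at this
    exact this.integrable_indicator hmeas
  have hGnn : ∀ t, 0 ≤ G t := by
    intro t
    apply Set.indicator_nonneg
    intro x _
    exact mul_nonneg (Real.exp_pos _).le (hP.nn x)
  have hGint : ∫ t, G t = Ex m P := by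
    rw [hG, integral_indicator hmeas]
    rfl
  have hGle : ∀ t ∈ pos m, ∑ b, t b ≤ 3 * m → P t ≤ Real.exp (3 * m) * G t := by
    intro t ht hs
    rw [hG, Set.indicator_of_mem ht, hg]
    have : 1 ≤ Real.exp (3 * m) * Real.exp (-∑ b, t b) := by
      rw [← Real.exp_add]
      apply Real.one_le_exp
      linarith
    calc P t = 1 * P t := (one_mul _).symm
      _ ≤ (Real.exp (3 * m) * Real.exp (-∑ b, t b)) * P t :=
        mul_le_mul_of_nonneg_right this (hP.nn t)
      _ = _ := by ring
  set B : Set (Fin m → ℝ) := Set.pi univ (fun _ : Fin m => Ioo (0 : ℝ) (1 / 4)) with hB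
  have hBm : MeasurableSet B := MeasurableSet.univ_pi fun _ => measurableSet_Ioo
  have hvol : (volume B).toReal = (1 / 4) ^ m := by
    rw [hB, Real.volume_pi_Ioo_toReal (a := fun _ => (0 : ℝ)) (b := fun _ => (1 / 4 : ℝ))]
    · simp
    · intro i
      norm_num
  have hfin : volume B < ⊤ := by
    rw [hB, Real.volume_pi_Ioo]
    exact ENNReal.prod_lt_top fun _ _ => ENNReal.ofReal_lt_top
  have hkey : ∀ t ∈ B, P a ≤ Real.exp (3 * m) / 2 * (G t + G ((fun b => 2 * a b) - t)) := by
    intro t ht
    have htB : ∀ b, 0 < t b ∧ t b < 1 / 4 := fun b => ht b (mem_univ b)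
    have e1 : a = (1 / 2 : ℝ) • t + (1 / 2 : ℝ) • ((fun b => 2 * a b) - t) := by
      funext b
      simp only [Pi.add_apply, Pi.smul_apply, Pi.sub_apply, smul_eq_mul]
      ring
    have e2 : P a ≤ 1 / 2 * P t + 1 / 2 * P ((fun b => 2 * a b) - t) := by
      have := hP.add ((1 / 2 : ℝ) • t) ((1 / 2 : ℝ) • ((fun b => 2 * a b) - t))
      rw [← e1, hP.hom _ (by norm_num), hP.hom _ (by norm_num)] at this
      exact this
    have s1 : ∑ b, t b ≤ 3 * m := by
      calc ∑ b, t b ≤ ∑ _b : Fin m, (3 : ℝ) :=
            Finset.sum_le_sum fun b _ => by linarith [(htB b).2]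
        _ = 3 * m := by simp [mul_comm]
    have s2 : ∑ b, ((fun b => 2 * a b) - t) b ≤ 3 * m := by
      calc ∑ b, ((fun b => 2 * a b) - t) b ≤ ∑ _b : Fin m, (3 : ℝ) :=
            Finset.sum_le_sum fun b _ => by
              simp only [Pi.sub_apply]
              linarith [(htB b).1, (ha b).2]
        _ = 3 * m := by simp [mul_comm]
    have p1 : t ∈ pos m := fun b => (htB b).1
    have p2 : ((fun b => 2 * a b) - t) ∈ pos m := fun b => by
      simp only [Pi.sub_apply]
      linarith [(htB b).2, (ha b).1]
    have q1 := hGle t p1 s1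
    have q2 := hGle _ p2 s2
    linarith
  have hG2 : Integrable (fun t => G ((fun b => 2 * a b) - t)) volume := hint.comp_sub_left _
  have hG2int : ∫ t, G ((fun b => 2 * a b) - t) = Ex m P := by
    rw [← hGint]
    exact integral_sub_left_eq_self G volume _
  have hmain : (1 / 4 : ℝ) ^ m * P a ≤ Real.exp (3 * m) * Ex m P := by
    have c1 : ∫ _t in B, P a = (1 / 4 : ℝ) ^ m * P a := by
      rw [setIntegral_const, Measure.real, hvol, smul_eq_mul]
    rw [← c1]
    calc ∫ _t in B, P a ≤ ∫ t in B, Real.exp (3 * m) / 2 * (G t + G ((fun b => 2 * a b) - t)) := by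
          apply setIntegral_mono_on
          · exact integrableOn_const hfin.ne
          · exact ((hint.add hG2).const_mul _).integrableOn
          · exact hBm
          · exact hkey
      _ ≤ ∫ t, Real.exp (3 * m) / 2 * (G t + G ((fun b => 2 * a b) - t)) := by
          apply setIntegral_le_integral
          · exact (hint.add hG2).const_mul _
          · refine Filter.Eventually.of_forall fun t => ?_
            exact mul_nonneg (by positivity) (add_nonneg (hGnn _) (hGnn _))
      _ = Real.exp (3 * m) / 2 * (Ex m P + Ex m P) := by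
          rw [integral_const_mul, integral_add hint hG2, hGint, hG2int]
      _ = Real.exp (3 * m) * Ex m P := by ring
  have h4 : (4 : ℝ) ^ m * (1 / 4) ^ m = 1 := by
    rw [← mul_pow]
    norm_num
  calc P a = 4 ^ m * ((1 / 4 : ℝ) ^ m * P a) := by rw [← mul_assoc, h4, one_mul]
    _ ≤ 4 ^ m * (Real.exp (3 * m) * Ex m P) := mul_le_mul_of_nonneg_left hmain (by positivity)
    _ = 4 ^ m * Real.exp (3 * m) * Ex m P := by ring

end Pool.Agent.Helper19.LQ
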